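import Pool.Agent.Run7.h742.AT.Meas
import Pool.Agent.Y321.PD.Main

/-!
# Anosov diffeomorphisms that preserve an infinite measure: definitions, and transitivity (helper742)
-/

set_option autoImplicit false

open scoped Manifold ContDiff Topology Bundle ENNReal
open Set Filter Bundle MeasureTheory

namespace Run7.h105.AN

open Pool.Agent.H721R2 Pool.Agent.H789R2.AN Pool.Agent.H779R2.An Pool.Agent.H779R2.To
  Pool.Agent.H779R2.Nu

/-- The stable set of `x` for `g`: the points `y` such that the forward orbits of `x` and `y` are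
asymptotic (for every neighbourhood `𝒰` of the diagonal, `gⁿ x` and `gⁿ y` are `𝒰`-close for all
large `n`). The stable leaf of `x` for an Anosov diffeomorphism `f` is `stableSet f x`, the unstable
leaf is `stableSet f.symm x`. -/
def stableSet {M : Type*} [TopologicalSpace M] (g : M → M) (x : M) : Set M :=
  {y | ∀ 𝒰 ∈ 𝓝ˢ (diagonal M), ∀ᶠ n : ℕ in atTop, (g^[n] x, g^[n] y) ∈ 𝒰}

/-- Near the point `y` the measure `μ` is comparable to Lebesgue measure: there are a chart, a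
neighbourhood `W` of `y` in the domain of this chart and a finite constant `K` such that
`K⁻¹ ν ≤ μ ≤ K ν` for the subsets of `W`. Here `ν` is a Haar (Lebesgue) measure of the model space. -/
def LebesgueNear {E : Type*} [NormedAddCommGroup E] [NormedSpace ℝ E] [MeasurableSpace E]
    (ν : Measure E) {M : Type*} [TopologicalSpace M] [ChartedSpace E M] [MeasurableSpace M]
    (μ : Measure M) (y : M) : Prop :=
  ∃ (x₀ : M) (K : ℝ≥0∞) (W : Set M), K ≠ ⊤ ∧ IsOpen W ∧ y ∈ W ∧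
    W ⊆ (extChartAt 𝓘(ℝ, E) x₀).source ∧ ∀ B ⊆ W, MeasurableSet B →
      ν (extChartAt 𝓘(ℝ, E) x₀ '' B) ≤ K * μ B ∧ μ B ≤ K * ν (extChartAt 𝓘(ℝ, E) x₀ '' B)

/-- `|det D(fᵏ)(p)|`, for a point `p` with `fᵏ(p) = p`. -/
noncomputable def perJac (E : Type*) [NormedAddCommGroup E] [NormedSpace ℝ E]
    {M : Type*} [TopologicalSpace M] [ChartedSpace E M] (f : M → M) (k : ℕ) (p : M) : ℝ :=
  |(mfderiv 𝓘(ℝ, E) 𝓘(ℝ, E) (f^[k]) p : E →L[ℝ] E).det|

/-- The return maps `D(fᵏ)`, `fᵏ(p) = p`, `k ≥ 1`, have uniformly bounded distortion on the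
subspaces `V p`: for some constant `K`, `‖D(fᵏ) v‖ / ‖v‖ ≤ K ‖D(fᵏ) w‖ / ‖w‖` for all such `k`, `p`
and all `v, w ∈ V p` (written without denominators).  Only periodic points are involved. -/
def PeriodicDistortion {E : Type*} [NormedAddCommGroup E] [NormedSpace ℝ E]
    {M : Type*} [TopologicalSpace M] [ChartedSpace E M] (f : M → M)
    (N : TangentBundle 𝓘(ℝ, E) M → ℝ) (V : ∀ x : M, Submodule ℝ (TangentSpace 𝓘(ℝ, E) x)) : Prop :=
  ∃ K : ℝ, ∀ (k : ℕ) (p : M), 1 ≤ k → f^[k] p = p → ∀ v ∈ V p, ∀ w ∈ V p,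
    N (tangentMap 𝓘(ℝ, E) 𝓘(ℝ, E) (f^[k]) ⟨p, v⟩) * N ⟨p, w⟩ ≤
      K * (N (tangentMap 𝓘(ℝ, E) 𝓘(ℝ, E) (f^[k]) ⟨p, w⟩) * N ⟨p, v⟩)

/-- `f` preserves a Borel measure of `M`, of finite or infinite mass, such that every unstable leaf
contains a point near which it is comparable to Lebesgue measure, or every stable leaf does. -/
def PreservesMeasure {E : Type*} [NormedAddCommGroup E] [NormedSpace ℝ E] [MeasurableSpace E]
    (ν : Measure E) {M : Type*} [TopologicalSpace M] [ChartedSpace E M] [MeasurableSpace M]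
    (f g : M → M) : Prop :=
  ∃ μ : Measure M, MeasurePreserving f μ μ ∧
    ((∀ x, ∃ y ∈ stableSet g x, LebesgueNear ν μ y) ∨ ∀ x, ∃ y ∈ stableSet f x, LebesgueNear ν μ y)

/-- There is an open set `U` which meets every unstable leaf such that `|det D(fᵏ)(p)| ≥ 1` at the
periodic points `p = fᵏ(p)` in `U`, or one which meets every stable leaf such that
`|det D(fᵏ)(p)| ≤ 1` at the periodic points in `U`. -/
def LocalDeterminants (E : Type*) [NormedAddCommGroup E] [NormedSpace ℝ E]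
    {M : Type*} [TopologicalSpace M] [ChartedSpace E M] (f g : M → M) : Prop :=
  ∃ U : Set M, IsOpen U ∧
    (((∀ x, ∃ y ∈ stableSet g x, y ∈ U) ∧
        ∀ p ∈ U, ∀ k : ℕ, 1 ≤ k → f^[k] p = p → 1 ≤ perJac E f k p) ∨
      ((∀ x, ∃ y ∈ stableSet f x, y ∈ U) ∧
        ∀ p ∈ U, ∀ k : ℕ, 1 ≤ k → f^[k] p = p → perJac E f k p ≤ 1))

section
variable (E : Type*) [NormedAddCommGroup E] [NormedSpace ℝ E] [FiniteDimensional ℝ E]
    [MeasurableSpace E] [BorelSpace E] (ν : Measure E) [ν.IsAddHaarMeasure]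
    (M : Type*) [TopologicalSpace M] [T2Space M] [CompactSpace M] [ConnectedSpace M]
    [MeasurableSpace M] [BorelSpace M]
    [ChartedSpace E M] [IsManifold 𝓘(ℝ, E) ∞ M] (f : Diffeomorph 𝓘(ℝ, E) 𝓘(ℝ, E) M M 1)
    (hf2 : ContMDiff 𝓘(ℝ, E) 𝓘(ℝ, E) 2 f) (hf2' : ContMDiff 𝓘(ℝ, E) 𝓘(ℝ, E) 2 f.symm)
    (Es Eu : ∀ x : M, Submodule ℝ (TangentSpace 𝓘(ℝ, E) x)) (hA : IsAnosov f Es Eu)

include hA hf2 hf2' in
/-- the theorem of helper742 -/
theorem transitive (h : PreservesMeasure ν f f.symm ∨ LocalDeterminants E f f.symm) :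
    TopTransitive f := by
  have hA' : IsAnosov f.symm Eu Es := Pool.Agent.W740.TU.anosov_symm f Es Eu hA
  have hback : ∀ {k : ℕ} {p : M}, f^[k] p = p → f.symm^[k] p = p := by
    intro k p hkp
    have hfl : f.symm^[k] (f^[k] p) = p :=
      (Function.LeftInverse.iterate (f := f) (g := f.symm) f.symm_apply_apply k) p
    rwa [hkp] at hfl
  have hforw : ∀ {k : ℕ} {p : M}, f.symm^[k] p = p → f^[k] p = p := by
    intro k p hkp
    have hfl : f^[k] (f.symm^[k] p) = p :=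
      (Function.LeftInverse.iterate (f := f.symm) (g := f) f.apply_symm_apply k) p
    rwa [hkp] at hfl
  have htt : TopTransitive f.symm → TopTransitive f := by
    intro h U V hU hUn hV hVn
    obtain ⟨n, _, ⟨v, hv, rfl⟩, hx⟩ := h V U hV hVn hU hUn
    refine ⟨n, v, ⟨f.symm^[n] v, hx, ?_⟩, hv⟩
    exact (Function.LeftInverse.iterate (f := f.symm) (g := f) f.apply_symm_apply n) v
  rcases h with ⟨μ, hμ, hc⟩ | ⟨U, hU, h⟩
  · set U : Set M := {y | LebesgueNear ν μ y} with hUdef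
    have hU : IsOpen U := by
      rw [isOpen_iff_mem_nhds]
      rintro y ⟨x₀, K, W, hK, hW, hy, hWs, hB⟩
      exact mem_of_superset (hW.mem_nhds hy) fun z hz => ⟨x₀, K, W, hK, hW, hz, hWs, hB⟩
    have hone : ∀ p ∈ U, ∀ k : ℕ, f^[k] p = p →
        Pool.Agent.Y321.PJ.perJac E f k p = 1 := by
      rintro p ⟨x₀, K, W, hK, hW, hy, hWs, hB⟩ k hkp
      exact Run7.h742.AT.perJac_eq ν μ hK hW hWs hB f hf2 hf2' hμ hy hkp
    have hone' : ∀ p ∈ U, ∀ k : ℕ, f.symm^[k] p = p →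
        Pool.Agent.Y321.PJ.perJac E f.symm k p = 1 := by
      intro p hp k hkp
      obtain ⟨-, h1, -⟩ := Run7.h742.AT.perJac_mul f (hforw hkp)
      rwa [hone p hp k (hforw hkp), mul_one] at h1
    rcases hc with hc | hc
    · exact (Run7.h742.AT.main_loc f hf2 hf2' Es Eu hA U hU
        (fun x => by obtain ⟨y, hy, hy'⟩ := hc x; exact ⟨y, hy', hy⟩)
        (fun p hp k _ hkp => (hone p hp k hkp).ge)).1
    · exact htt (Run7.h742.AT.main_loc f.symm hf2' hf2 Eu Es hA' U hU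
        (fun x => by obtain ⟨y, hy, hy'⟩ := hc x; exact ⟨y, hy', hy⟩)
        (fun p hp k _ hkp => (hone' p hp k hkp).ge)).1
  · rcases h with ⟨h1, h2⟩ | ⟨h1, h2⟩
    · exact (Run7.h742.AT.main_loc f hf2 hf2' Es Eu hA U hU
        (fun x => by obtain ⟨y, hy, hy'⟩ := h1 x; exact ⟨y, hy', hy⟩) h2).1
    · refine htt (Run7.h742.AT.main_loc f.symm hf2' hf2 Eu Es hA' U hU
        (fun x => by obtain ⟨y, hy, hy'⟩ := h1 x; exact ⟨y, hy', hy⟩) ?_).1
      intro p hp k hk hkp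
      obtain ⟨h3, h4, -⟩ := Run7.h742.AT.perJac_mul f (hforw hkp)
      have h5 : Pool.Agent.Y321.PJ.perJac E f k p ≤ 1 := h2 p hp k hk (hforw hkp)
      have h6 : 0 < Pool.Agent.Y321.PJ.perJac E f.symm k p := by
        by_contra h7
        push Not at h7
        nlinarith
      nlinarith
end

/-- every point is nonwandering -/
theorem nonwandering {M : Type*} [TopologicalSpace M] (f : M ≃ₜ M) (htr : TopTransitive f)
    (U : Set M) (hU : IsOpen U) (hUn : U.Nonempty) : ∃ m : ℕ, 1 ≤ m ∧ (f^[m] '' U ∩ U).Nonempty := by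
  have hfU : IsOpen (f '' U) := f.isOpenMap U hU
  obtain ⟨n, _, ⟨_, ⟨x, hx, rfl⟩, rfl⟩, hy⟩ := htr (f '' U) U hfU (hUn.image f) hU hUn
  exact ⟨n + 1, by omega, f^[n] (f x), ⟨x, hx, by rw [Function.iterate_succ_apply]⟩, hy⟩

end Run7.h105.AN
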